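import Mathlib
import Pool.Agent.Helper16.BT.GrowH
import Pool.Agent.Helper16.BT.Dual

/-!
If the conclusion of the stable second Brauer-Thrall conjecture fails for `A`, then the
endomorphism rings of all τ-rigid modules and of all modules of projective dimension at most one,
over all factor algebras of `A`, grow quadratically with the dimension (uniformly), and each factor
algebra has only finitely many bricks of this kind. The same holds for the opposite algebra.
-/

namespace Pool.Agent.Results.MP_5f7cd4_al.QuadraticEndomorphismGrowth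

open Module

/-- The conclusion of Q1, written as in the frozen statement `S01649`: for some dimension vector
`d` and integer weight `θ` there are infinitely many non-isomorphic `θ`-stable modules of dimension
vector `d`. -/
def StableFamily (k : Type) [Field k] (A : Type) [Ring A] [Algebra k A] : Prop :=
  ∃ (n : ℕ) (e : Fin n → A) (d : Fin n → ℕ) (θ : Fin n → ℤ),
    CompleteOrthogonalIdempotents e ∧ (∑ i, θ i * (d i : ℤ)) = 0 ∧
    ∀ N : ℕ, ∃ (M : Fin N → Type) (_ : ∀ j, AddCommGroup (M j))
      (_ : ∀ j, Module A (M j)) (_ : ∀ j, Module k (M j))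
      (_ : ∀ j, IsScalarTower k A (M j)),
      (∀ j, Module.Finite k (M j)) ∧ (∀ j, Nontrivial (M j)) ∧
      (∀ (j : Fin N) (i : Fin n),
        Module.finrank k (LinearMap.range (DistribMulAction.toLinearMap k (M j) (e i)))
          = d i) ∧
      (∀ (j : Fin N) (P : Submodule A (M j)), P ≠ ⊥ → P ≠ ⊤ →
        0 < ∑ i, θ i * (Module.finrank k
          (Submodule.map (DistribMulAction.toLinearMap k (M j) (e i))
            (P.restrictScalars k)) : ℤ)) ∧
      (∀ j j', Nonempty (M j ≃ₗ[A] M j') → j = j')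

/-- A presentation `f : P → Q` of the module `M = Q / f(P)` is good if it is injective (so `M` has
projective dimension at most one), or if no map `P → Q` has a cokernel of smaller dimension, or if
every map `P → M` factors through `f` (so `M` is τ-rigid). -/
def Good (k : Type) {B P Q : Type} [Field k] [Ring B] [Algebra k B] [AddCommGroup P] [Module B P]
    [AddCommGroup Q] [Module B Q] [Module k Q] [IsScalarTower k B Q] (f : P →ₗ[B] Q) : Prop :=
  Function.Injective f ∨
  (∀ g : P →ₗ[B] Q,
    finrank k (Q ⧸ LinearMap.range f) ≤ finrank k (Q ⧸ LinearMap.range g)) ∨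
  (∀ φ : P →ₗ[B] (Q ⧸ LinearMap.range f),
    ∃ ψ : Q →ₗ[B] (Q ⧸ LinearMap.range f), φ = ψ ∘ₗ f)

/-- The dimension of `M = Q / f(P)`. -/
noncomputable def dimM (k : Type) {B P Q : Type} [Field k] [Ring B] [Algebra k B]
    [AddCommGroup P] [Module B P] [AddCommGroup Q] [Module B Q] [Module k Q]
    [IsScalarTower k B Q] (f : P →ₗ[B] Q) : ℝ :=
  (finrank k (Q ⧸ LinearMap.range f) : ℝ)

/-- The dimension of `End M`, `M = Q / f(P)`. -/
noncomputable def dimEnd (k : Type) {B P Q : Type} [Field k] [Ring B] [Algebra k B]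
    [AddCommGroup P] [Module B P] [AddCommGroup Q] [Module B Q] [Module k Q]
    [IsScalarTower k B Q] (f : P →ₗ[B] Q) : ℝ :=
  (finrank k ((Q ⧸ LinearMap.range f) →ₗ[B] (Q ⧸ LinearMap.range f)) : ℝ)

/-- The number `dim Hom(Q, M) - dim Hom(P, M)`, `M = Q / f(P)`. -/
noncomputable def homDiff (k : Type) {B P Q : Type} [Field k] [Ring B] [Algebra k B]
    [AddCommGroup P] [Module B P] [AddCommGroup Q] [Module B Q] [Module k Q]
    [IsScalarTower k B Q] (f : P →ₗ[B] Q) : ℝ :=
  (finrank k (Q →ₗ[B] (Q ⧸ LinearMap.range f)) : ℝ) -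
    (finrank k (P →ₗ[B] (Q ⧸ LinearMap.range f)) : ℝ)

/-- There is `ε > 0` such that for all factor algebras `B` of `A` and all maps `f : P → Q` of
finitely generated projective `B`-modules, with `M = Q / f(P)`:
`ε (dim M)² ≤ dim End M + dim M (dim M - dim Q / g(P))` for some `g : P → Q`;
`dim Hom(Q, M) - dim Hom(P, M) ≤ dim End M`; and
`ε (dim M)² ≤ dim Hom(Q, M) - dim Hom(P, M)` if `f` is good. -/
def Growth (k : Type) [Field k] (A : Type) [Ring A] [Algebra k A] : Prop :=
  ∃ ε : ℝ, 0 < ε ∧
    ∀ (B : Type) [Ring B] [Algebra k B] (π : A →ₐ[k] B), Function.Surjective π →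
    ∀ (P Q : Type) [AddCommGroup P] [Module B P] [AddCommGroup Q] [Module B Q] [Module k Q]
      [IsScalarTower k B Q] [Module.Finite B P] [Module.Projective B P] [Module.Finite B Q]
      [Module.Projective B Q] (f : P →ₗ[B] Q),
    (∃ g : P →ₗ[B] Q, ε * dimM k f ^ 2 ≤ dimEnd k f + dimM k f * (dimM k f - dimM k g)) ∧
    homDiff k f ≤ dimEnd k f ∧
    (Good k f → ε * dimM k f ^ 2 ≤ homDiff k f)

/-- No factor algebra `B` of `A` has infinitely many non-isomorphic bricks which are cokernels of
good maps between finitely generated projective `B`-modules. -/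
def FinitelyManyGoodBricks (k : Type) [Field k] (A : Type) [Ring A] [Algebra k A] : Prop :=
  ∀ (B : Type) [Ring B] [Algebra k B] (π : A →ₐ[k] B), Function.Surjective π →
    ¬ ∀ N : ℕ, ∃ (M : Fin N → Type) (_ : ∀ i, AddCommGroup (M i)) (_ : ∀ i, Module B (M i))
        (_ : ∀ i, Module k (M i)) (_ : ∀ i, IsScalarTower k B (M i)),
        (∀ i, Module.Finite k (M i)) ∧ (∀ i, Nontrivial (M i)) ∧
        (∀ i, ∀ f : M i →ₗ[B] M i, ∃ c : k, ∀ x : M i, f x = c • x) ∧
        (∀ i, ∃ (P Q : Type) (_ : AddCommGroup P) (_ : Module B P) (_ : AddCommGroup Q)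
          (_ : Module B Q) (_ : Module k Q) (_ : IsScalarTower k B Q) (f : P →ₗ[B] Q),
          Module.Finite B P ∧ Module.Projective B P ∧ Module.Finite B Q ∧
          Module.Projective B Q ∧ Good k f ∧
          Nonempty ((Q ⧸ LinearMap.range f) ≃ₗ[B] M i)) ∧
        (∀ i j, Nonempty (M i ≃ₗ[B] M j) → i = j)

theorem result (k : Type) [Field k] [IsAlgClosed k] (A : Type) [Ring A] [Algebra k A]
    [FiniteDimensional k A] (hno : ¬ StableFamily k A) :
    (Growth k A ∧ FinitelyManyGoodBricks k A) ∧ (Growth k Aᵐᵒᵖ ∧ FinitelyManyGoodBricks k Aᵐᵒᵖ) :=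
  ⟨BT.grow_main k A hno, BT.grow_main k Aᵐᵒᵖ (fun h => hno (BT.stable_op k A h))⟩

end Pool.Agent.Results.MP_5f7cd4_al.QuadraticEndomorphismGrowth
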