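import Mathlib
import Pool.Agent.Helper16.BT.Backward

/-!
For every finite-dimensional algebra over an algebraically closed field: there are infinitely many
`θ`-stable modules of one dimension vector, for some integer weight `θ`, if and only if some
presentation space `Hom(P, Q)` of finitely generated projective modules has no rigid point.
-/

namespace Pool.Agent.Results.MP_5f7cd4_al.StableIffNonrigidPresentation

/-- A map `f : P → Q` is rigid if `Hom(P, Q) = End(Q) f + f End(P)`. -/
def Rigid {A : Type} [Ring A] {P Q : Type} [AddCommGroup P] [Module A P] [AddCommGroup Q]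
    [Module A Q] (f : P →ₗ[A] Q) : Prop :=
  ∀ g : P →ₗ[A] Q, ∃ (u : Q →ₗ[A] Q) (v : P →ₗ[A] P), g = u ∘ₗ f + f ∘ₗ v

theorem result (k : Type) [Field k] [IsAlgClosed k] (A : Type) [Ring A] [Algebra k A]
    [FiniteDimensional k A] :
    (∃ (n : ℕ) (e : Fin n → A) (d : Fin n → ℕ) (θ : Fin n → ℤ),
      CompleteOrthogonalIdempotents e ∧ (∑ i, θ i * (d i : ℤ)) = 0 ∧
      ∀ N : ℕ, ∃ (M : Fin N → Type) (_ : ∀ j, AddCommGroup (M j))
        (_ : ∀ j, Module A (M j)) (_ : ∀ j, Module k (M j))
        (_ : ∀ j, IsScalarTower k A (M j)),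
        (∀ j, Module.Finite k (M j)) ∧ (∀ j, Nontrivial (M j)) ∧
        (∀ (j : Fin N) (i : Fin n),
          Module.finrank k (LinearMap.range (DistribMulAction.toLinearMap k (M j) (e i)))
            = d i) ∧
        (∀ (j : Fin N) (P : Submodule A (M j)), P ≠ ⊥ → P ≠ ⊤ →
          0 < ∑ i, θ i * (Module.finrank k
            (Submodule.map (DistribMulAction.toLinearMap k (M j) (e i))
              (P.restrictScalars k)) : ℤ)) ∧
        (∀ j j', Nonempty (M j ≃ₗ[A] M j') → j = j')) ↔
    ∃ (P Q : Type) (_ : AddCommGroup P) (_ : AddCommGroup Q) (_ : Module A P) (_ : Module A Q),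
      Module.Finite A P ∧ Module.Finite A Q ∧ Module.Projective A P ∧ Module.Projective A Q ∧
      ∀ f : P →ₗ[A] Q, ¬ Rigid f := by
  constructor
  · intro h
    exact BT.backward k A h
  · rintro ⟨P, Q, _, _, _, _, _, _, _, _, h⟩
    exact BT.forward k A P Q h

end Pool.Agent.Results.MP_5f7cd4_al.StableIffNonrigidPresentation
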