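import Mathlib
import Pool.Agent.BT3.Fin

/-!
The stable second Brauer-Thrall conjecture for finite-dimensional algebras (over an algebraically
closed field) which have a factor algebra `B` with at most three simple modules and infinitely many
bricks: it holds if the radical of `B` is spanned by commutators (for example if `B` has finite
global dimension), and it holds if no stable `B`-module has a nonsplit self-extension.
-/

namespace Pool.Agent.Results.MP_5f7cd4_al.ThreeSimplesQuotient

theorem result (k : Type) [Field k] [IsAlgClosed k] (A : Type) [Ring A] [Algebra k A]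
    [FiniteDimensional k A] (B : Type) [Ring B] [Algebra k B] (π : A →ₐ[k] B)
    (hπ : Function.Surjective π)
    (hsimple : ∀ (S : Fin 4 → Type) [∀ i, AddCommGroup (S i)] [∀ i, Module B (S i)],
      (∀ i, IsSimpleModule B (S i)) → ∃ i j, i ≠ j ∧ Nonempty (S i ≃ₗ[B] S j))
    (hbricks : ∀ N : ℕ, ∃ (M : Fin N → Type) (_ : ∀ i, AddCommGroup (M i))
          (_ : ∀ i, Module B (M i)) (_ : ∀ i, Module k (M i)) (_ : ∀ i, IsScalarTower k B (M i)),
          (∀ i, Module.Finite k (M i)) ∧ (∀ i, Nontrivial (M i)) ∧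
          (∀ i, ∀ f : M i →ₗ[B] M i, ∃ c : k, ∀ x : M i, f x = c • x) ∧
          (∀ i j, Nonempty (M i ≃ₗ[B] M j) → i = j)) :
    (∃ (n : ℕ) (e : Fin n → A) (d : Fin n → ℕ) (θ : Fin n → ℤ),
      CompleteOrthogonalIdempotents e ∧ (∑ i, θ i * (d i : ℤ)) = 0 ∧
      ∀ N : ℕ, ∃ (M : Fin N → Type) (_ : ∀ j, AddCommGroup (M j))
        (_ : ∀ j, Module A (M j)) (_ : ∀ j, Module k (M j))
        (_ : ∀ j, IsScalarTower k A (M j)),
        (∀ j, Module.Finite k (M j)) ∧ (∀ j, Nontrivial (M j)) ∧
        (∀ (j : Fin N) (i : Fin n),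
          Module.finrank k (LinearMap.range (DistribMulAction.toLinearMap k (M j) (e i)))
            = d i) ∧
        (∀ (j : Fin N) (P : Submodule A (M j)), P ≠ ⊥ → P ≠ ⊤ →
          0 < ∑ i, θ i * (Module.finrank k
            (Submodule.map (DistribMulAction.toLinearMap k (M j) (e i))
              (P.restrictScalars k)) : ℤ)) ∧
        (∀ j j', Nonempty (M j ≃ₗ[A] M j') → j = j')) ∨
    ((∃ (n : ℕ) (e : Fin n → B) (θ : Fin n → ℤ) (M E : Type)
        (_ : AddCommGroup M) (_ : Module B M) (_ : Module k M) (_ : IsScalarTower k B M)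
        (_ : AddCommGroup E) (_ : Module B E) (_ : Module k E) (_ : IsScalarTower k B E)
        (i : M →ₗ[B] E) (p : E →ₗ[B] M),
        Module.Finite k M ∧ Module.Finite k E ∧ CompleteOrthogonalIdempotents e ∧
        Nontrivial M ∧
        (∑ j, θ j * (Module.finrank k
          (LinearMap.range (DistribMulAction.toLinearMap k M (e j))) : ℤ)) = 0 ∧
        (∀ P : Submodule B M, P ≠ ⊥ → P ≠ ⊤ →
          0 < ∑ j, θ j * (Module.finrank k
            (Submodule.map (DistribMulAction.toLinearMap k M (e j))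
              (P.restrictScalars k)) : ℤ)) ∧
        Function.Injective i ∧ Function.Surjective p ∧ LinearMap.range i = LinearMap.ker p ∧
        ¬ ∃ s : M →ₗ[B] E, p ∘ₗ s = LinearMap.id) ∧
      ¬ ∀ b ∈ Ring.jacobson B, b ∈ Submodule.span k {c : B | ∃ x y : B, c = x * y - y * x}) := by
  rcases BT3.main k A B π hπ hsimple hbricks with h | ⟨h1, h2⟩
  · exact Or.inl h
  · obtain ⟨n, e, θ, M, E, i, p, he, h3, h4, h5, h6, h7, h8, h9⟩ := h1
    exact Or.inr ⟨⟨n, e, θ, M.X, E.X, M.i1, M.i2, M.i3, M.i4, E.i1, E.i2, E.i3, E.i4, i, p,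
      M.i5, E.i5, he, h3, h4, h5, h6, h7, h8, h9⟩, h2⟩

end Pool.Agent.Results.MP_5f7cd4_al.ThreeSimplesQuotient
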