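import Mathlib
import Pool.Agent.Helper16.BT.Quot

/-!
The stable second Brauer-Thrall conjecture holds for every finite-dimensional algebra (over an
algebraically closed field) which has a factor algebra with at most two simple modules and
infinitely many bricks.
-/

namespace Pool.Agent.Results.MP_5f7cd4_al.TwoSimplesQuotient

theorem result (k : Type) [Field k] [IsAlgClosed k] (A : Type) [Ring A] [Algebra k A]
    [FiniteDimensional k A] (B : Type) [Ring B] [Algebra k B] (π : A →ₐ[k] B)
    (hπ : Function.Surjective π)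
    (hsimple : ∀ (S : Fin 3 → Type) [∀ i, AddCommGroup (S i)] [∀ i, Module B (S i)],
      (∀ i, IsSimpleModule B (S i)) → ∃ i j, i ≠ j ∧ Nonempty (S i ≃ₗ[B] S j))
    (hbricks : ∀ N : ℕ, ∃ (M : Fin N → Type) (_ : ∀ i, AddCommGroup (M i))
          (_ : ∀ i, Module B (M i)) (_ : ∀ i, Module k (M i)) (_ : ∀ i, IsScalarTower k B (M i)),
          (∀ i, Module.Finite k (M i)) ∧ (∀ i, Nontrivial (M i)) ∧
          (∀ i, ∀ f : M i →ₗ[B] M i, ∃ c : k, ∀ x : M i, f x = c • x) ∧
          (∀ i j, Nonempty (M i ≃ₗ[B] M j) → i = j)) :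
    ∃ (n : ℕ) (e : Fin n → A) (d : Fin n → ℕ) (θ : Fin n → ℤ),
      CompleteOrthogonalIdempotents e ∧ (∑ i, θ i * (d i : ℤ)) = 0 ∧
      ∀ N : ℕ, ∃ (M : Fin N → Type) (_ : ∀ j, AddCommGroup (M j))
        (_ : ∀ j, Module A (M j)) (_ : ∀ j, Module k (M j))
        (_ : ∀ j, IsScalarTower k A (M j)),
        (∀ j, Module.Finite k (M j)) ∧ (∀ j, Nontrivial (M j)) ∧
        (∀ (j : Fin N) (i : Fin n),
          Module.finrank k (LinearMap.range (DistribMulAction.toLinearMap k (M j) (e i)))
            = d i) ∧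
        (∀ (j : Fin N) (P : Submodule A (M j)), P ≠ ⊥ → P ≠ ⊤ →
          0 < ∑ i, θ i * (Module.finrank k
            (Submodule.map (DistribMulAction.toLinearMap k (M j) (e i))
              (P.restrictScalars k)) : ℤ)) ∧
        (∀ j j', Nonempty (M j ≃ₗ[A] M j') → j = j') :=
  BT.final k A B π hπ hsimple hbricks

end Pool.Agent.Results.MP_5f7cd4_al.TwoSimplesQuotient
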